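import Mathlib
import Pool.Agent.V11205.URC.Defs
import Pool.Agent.V11205.URC.Main

/-!
Every edge net of the unit cube admits a uniform rep-cube.

A set of unit squares of the integer grid is a `Finset (ℤ × ℤ)` (lower left corners).
`URC.IsEdgeNet N` says that `N` is an edge net of the unit cube, and
`URC.IsUniformRepCube N k P` says that `P` is a uniform rep-cube of order `k ≥ 2` all of whose
pieces are congruent to `N`; the notions used are in `Pool.Agent.V11205.URC.Defs` and
`Pool.Agent.Helper697.RepDefs`.
-/

namespace Pool.Agent.Results.MP_0163eb_co.UniformRepCubes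

open Pool.Agent.V11205.URC

/-- Every edge net of the unit cube admits a uniform rep-cube. -/
theorem result : ∀ N : Finset (ℤ × ℤ), IsEdgeNet N →
    ∃ (k : ℕ) (P : Finset (ℤ × ℤ)), IsUniformRepCube N k P :=
  main

end Pool.Agent.Results.MP_0163eb_co.UniformRepCubes
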